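import Mathlib.Data.Nat.Notation

set_option autoImplicit false

/-!
# Certificates for sums over cusps in the chamber of a hyperbolic reflection group (computation)

Vectors are lists of natural numbers of length `N = n + 2`.  All functions in this file are
evaluated by the kernel.
-/

namespace Pool.Agent.Helper10.Fam

/-- dot product -/
def dn : List ℕ → List ℕ → ℕ
  | a :: s, b :: t => a * b + dn s t
  | _, _ => 0

/-- `k • x + y` -/
def ax (k : ℕ) : List ℕ → List ℕ → List ℕ
  | a :: s, b :: t => (k * a + b) :: ax k s t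
  | _, _ => []

/-- matrix (list of rows) times vector -/
def mv : List (List ℕ) → List ℕ → List ℕ
  | [], _ => []
  | r :: R, v => dn r v :: mv R v

/-- equality of lists -/
def beqL : List ℕ → List ℕ → Bool
  | [], [] => true
  | a :: s, b :: t => Nat.beq a b && beqL s t
  | _, _ => false

/-- `v = al • a + be • b` -/
def comb (al be : ℕ) : List ℕ → List ℕ → List ℕ → Bool
  | [], [], [] => true
  | v :: x, a :: y, b :: z => Nat.beq v (al * a + be * b) && comb al be x y z
  | _, _, _ => false

/-- `v = k • a` -/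
def smulEq (k : ℕ) : List ℕ → List ℕ → Bool
  | [], [] => true
  | v :: x, a :: y => Nat.beq v (k * a) && smulEq k x y
  | _, _ => false

/-- entrywise `≤ k •` -/
def leK (k : ℕ) : List ℕ → List ℕ → Bool
  | [], [] => true
  | a :: s, b :: t => Nat.ble a (k * b) && leK k s t
  | _, _ => false

/-- the list is `(0, ..., 0, s, 0, ..., 0)` with `s > 0` at place `k` and length `N` -/
def isUnit : ℕ → ℕ → List ℕ → Bool
  | 0, _, [] => true
  | N + 1, 0, a :: s => Nat.ble 1 a && isUnit' N s
  | N + 1, k + 1, a :: s => Nat.beq a 0 && isUnit N k s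
  | _, _, _ => false
where
  isUnit' : ℕ → List ℕ → Bool
    | 0, [] => true
    | N + 1, a :: s => Nat.beq a 0 && isUnit' N s
    | _, _ => false

/-- vertex record: coordinates `v`, `nu = vᵀ H v`, and a scale `s` (used for upper bounds) -/
structure Vr where
  v : List ℕ
  nu : ℕ
  s : ℕ

/-- binary trees as tables, indexed by positive numbers -/
inductive BT (α : Type) where
  | nil : BT α
  | node : α → BT α → BT α → BT α

def BT.get {α : Type} : BT α → ℕ → Option α
  | .nil, _ => none
  | .node a l r, k =>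
    if Nat.beq k 1 then some a else if Nat.beq (k % 2) 0 then l.get (k / 2) else r.get (k / 2)

def BT.all {α : Type} (f : α → Bool) : BT α → Bool
  | .nil => true
  | .node a l r => f a && l.all f && r.all f

def setAt {α : Type} : List α → ℕ → α → List α
  | [], _, _ => []
  | _ :: s, 0, x => x :: s
  | a :: s, n + 1, x => a :: setAt s n x

def getAt {α : Type} : List α → ℕ → Option α
  | [], _ => none
  | a :: _, 0 => some a
  | _ :: s, n + 1 => getAt s n

/-- subdivision tree; a leaf carries data `α` -/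
inductive Tr (α : Type) where
  | leaf : α → Tr α
  | bis : ℕ → ℕ → ℕ → ℕ → ℕ → Tr α → Tr α → Tr α

/-- check of a subdivision tree: `bis i j al be k l r` introduces the vertex number `k` of the
table, which must be `al • V_i + be • V_j`; it replaces `V_i` in `l` and `V_j` in `r` -/
def chkTr {α : Type} (T : BT Vr) (ok : α → List Vr → Bool) : Tr α → List Vr → Bool
  | .leaf k, L => ok k L
  | .bis i j al be k l r, L =>
    match T.get k, getAt L i, getAt L j with
    | some P, some x, some y =>
      Nat.ble 1 al && Nat.ble 1 be && !(Nat.beq i j) && comb al be P.v x.v y.v &&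
        chkTr T ok l (setAt L i P) && chkTr T ok r (setAt L j P)
    | _, _, _ => false

/-- the initial cone: the unit vectors, up to scale -/
def initOK (N : ℕ) : ℕ → List Vr → Bool
  | k, [] => Nat.beq k N
  | k, x :: L => isUnit N k x.v && initOK N (k + 1) L

/-- data of the hyperbolic reflection group: `G = 2 - A` for the Gram matrix `A` of the simple
roots, `H = - d A⁻¹`, marks `w0` of the affine diagram (with a last entry `0`), cut-off
`c / 1000`, list `W` of cusps -/
structure Dat where
  n : ℕ
  G : List (List ℕ)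
  H : List (List ℕ)
  d : ℕ
  w0 : List ℕ
  c : ℕ
  W : List (List ℕ)

/-- the number `vᵀ H v` is correct and the length is right -/
def vOK (D : Dat) (x : Vr) : Bool :=
  Nat.beq x.v.length (D.n + 2) && Nat.beq x.nu (dn x.v (mv D.H x.v))

def memL (w : List ℕ) : List (List ℕ) → Bool
  | [] => false
  | v :: t => beqL w v || memL w t

/-! ### lower bounds -/

/-- tangent of `g(u) = (c/1000 - u)₊² / u²` at `u = a / 1000`, scaled by `10⁶`:
`10⁶ g(u) ≥ alpha - beta u` -/
def tang (c a : ℕ) : ℕ × ℕ :=
  if Nat.beq a 0 then (0, 0) else if Nat.ble c a then (0, 0) else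
    (1000000 * (c - a) * (3 * c - a) / (a * a), (2000000 * (c - a) * c * 1000) / (a * a * a) + 1)

/-- sum of the tangents at the center `X / 1000` -/
def tsum (c : ℕ) (X : List ℕ) : List (List ℕ) → ℕ × List ℕ
  | [] => (0, X.map fun _ => 0)
  | w :: t =>
    match tsum c X t, tang c (dn w X) with
    | (al, v), (a, b) => (al + a, ax b w v)

/-- a ball `{v · x ≤ B}`; center `X / 1000`, or `a / 1000` for the horoball of `w0` if `X = []` -/
structure Ball where
  X : List ℕ
  a : ℕ
  v : List ℕ
  B : ℕ

def ballOK (D : Dat) (m0 : ℕ) (b : Ball) : Bool :=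
  match b.X with
  | [] => match tang D.c b.a with
    | (al, be) => smulEq be b.v D.w0 && Nat.beq al (b.B + m0)
  | X => match tsum D.c X D.W with
    | (al, v) => Nat.beq X.length (D.n + 2) && beqL b.v v && Nat.beq al (b.B + m0)

/-- the cone with the given generators is contained in the ball -/
def inBall (d : ℕ) (b : Ball) : List Vr → Bool
  | [] => true
  | x :: L =>
    (fun t => Nat.ble (t * t * d) (b.B * b.B * x.nu)) (dn b.v x.v) && inBall d b L

def leafLow (d : ℕ) (Bs : BT Ball) (k : ℕ) (L : List Vr) : Bool :=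
  match Bs.get k with
  | some b => inBall d b L
  | none => false

/-- certificate for a lower bound; the bound is `m0 / 10⁶` -/
structure LowCert where
  m0 : ℕ
  T : BT Vr
  Bs : BT Ball
  L0 : List Vr
  tr : Tr ℕ

/-- cheap part of the check of the tables -/
def lowTab (D : Dat) (C : LowCert) : Bool :=
  C.T.all (vOK D) && C.L0.all (vOK D) && initOK (D.n + 2) 0 C.L0 &&
    D.W.all (fun w => Nat.beq w.length (D.n + 2)) && memL D.w0 D.W

def lowBalls (D : Dat) (C : LowCert) : Bool := C.Bs.all (ballOK D C.m0)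

def lowTree (D : Dat) (C : LowCert) : Bool := chkTr C.T (leafLow D.d C.Bs) C.tr C.L0

/-! ### upper bounds -/

/-- `10⁶ ∑_w (c s / 1000 - u_w(V))₊²` -/
def fsum (c s : ℕ) (V : List ℕ) : List (List ℕ) → ℕ
  | [] => 0
  | w :: t => (fun u => (c * s - 1000 * u) * (c * s - 1000 * u)) (dn w V) + fsum c s V t

/-- `∑_w (c s - u_w)₊² ≤ (Mn / 1000) |V| s` -/
def upV (D : Dat) (Mn : ℕ) (x : Vr) : Bool :=
  (fun F => Nat.ble (1000 * F * (1000 * F) * D.d)
    (Mn * 1000000 * x.s * (Mn * 1000000 * x.s) * x.nu)) (fsum D.c x.s x.v D.W)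

/-- near the cusp: `2 c u_{w0}(V) ≤ |V|` for all generators -/
def nearCusp (D : Dat) : List Vr → Bool
  | [] => true
  | x :: L =>
    (fun t => Nat.ble (2 * D.c * t * (2 * D.c * t) * D.d) (1000000 * x.nu)) (dn D.w0 x.v)
      && nearCusp D L

/-- `V ᵀ H X ≤ s_V ka` for all generators -/
def cenOK (HX : List ℕ) (ka : ℕ) : List Vr → Bool
  | [] => true
  | x :: L => Nat.ble (dn HX x.v) (x.s * ka) && cenOK HX ka L

/-- leaf of an upper bound tree: near the cusp, or a center `X` with `HX = H X`,
`0 < ka`, `ka² ≤ d Xᵀ H X` -/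
inductive UL where
  | cusp : UL
  | cen : List ℕ → List ℕ → ℕ → UL

def leafUp (D : Dat) : UL → List Vr → Bool
  | .cusp, L => nearCusp D L
  | .cen X HX ka, L =>
    beqL HX (mv D.H X) && Nat.beq X.length (D.n + 2) && Nat.ble 1 ka &&
      Nat.ble (ka * ka) (D.d * dn X HX) && cenOK HX ka L

/-- `w` is isotropic, and `w = w0` or `- form(w0, w) ≥ 1` -/
def isoOK (D : Dat) (w : List ℕ) : Bool :=
  Nat.beq w.length (D.n + 2) && Nat.beq (dn w (mv D.G w)) (2 * dn w w) &&
    (beqL w D.w0 || Nat.ble (4 * dn D.w0 w + 2) (dn w (mv D.G D.w0) + dn D.w0 (mv D.G w)))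

/-- certificate for an upper bound `Mn / 1000` -/
structure UpCert where
  Mn : ℕ
  T : BT Vr
  L0 : List Vr
  tr : Tr UL

def upTab (D : Dat) (C : UpCert) : Bool :=
  C.T.all (vOK D) && C.L0.all (vOK D) && initOK (D.n + 2) 0 C.L0 &&
    Nat.ble (D.c * D.c) (C.Mn * 1000) && D.W.all (isoOK D) && Nat.beq D.w0.length (D.n + 2) &&
    Nat.beq (dn D.w0 (mv D.G D.w0)) (2 * dn D.w0 D.w0)

def upVerts (D : Dat) (C : UpCert) : Bool := C.T.all (upV D C.Mn) && C.L0.all (upV D C.Mn)

def upTree (D : Dat) (C : UpCert) : Bool := chkTr C.T (leafUp D) C.tr C.L0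

/-! ### the list of cusps -/

def nodupL : List (List ℕ) → Bool
  | [] => true
  | v :: t => !(memL v t) && nodupL t

/-- replace the `i`-th entry of `w` by `gi - w_i` -/
def refl (gi : ℕ) : List ℕ → ℕ → List ℕ
  | [], _ => []
  | a :: s, 0 => (gi - a) :: s
  | a :: s, i + 1 => a :: refl gi s i

/-- some reflection `s_i w` with `w_i ≤ (G w)_i < 2 w_i` is in the list;
arguments: `w`, remaining entries of `G w`, remaining entries of `w`, index -/
def hasDesc (W : List (List ℕ)) (w : List ℕ) : List ℕ → List ℕ → ℕ → Bool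
  | g :: gs, a :: as, i =>
    (Nat.ble (g + 1) (2 * a) && Nat.ble a g && memL (refl g w i) W)
      || hasDesc W w gs as (i + 1)
  | _, _, _ => false

/-- certificate vectors `e` (units `10⁻⁵`): `eᵀ G e - 2 e² ≥ (100 c)²` -/
def exOK (D : Dat) : List (List ℕ) → Bool
  | [] => true
  | e :: t => Nat.beq e.length (D.n + 2) &&
    Nat.ble (2 * dn e e + 100 * D.c * (100 * D.c)) (dn e (mv D.G e)) && exOK D t

def exLe (w : List ℕ) : List (List ℕ) → Bool
  | [] => false
  | e :: t => leK 100000 e w || exLe w t

/-- every reflection `s_i w` with `2 w_i < (G w)_i` is in the list or excluded -/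
def closedAt (W Ex : List (List ℕ)) (w : List ℕ) : List ℕ → List ℕ → ℕ → Bool
  | g :: gs, a :: as, i =>
    (Nat.ble g (2 * a) || memL (refl g w i) W || exLe (refl g w i) Ex) &&
      closedAt W Ex w gs as (i + 1)
  | [], [], _ => true
  | _, _, _ => false

def listOK (D : Dat) (Ex : List (List ℕ)) : List (List ℕ) → Bool
  | [] => true
  | w :: t =>
    Nat.beq w.length (D.n + 2) && (beqL w D.w0 || hasDesc D.W w (mv D.G w) w 0) &&
      closedAt D.W Ex w (mv D.G w) w 0 && listOK D Ex t

/-- the list of cusps is complete up to height `c / 1000` -/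
def cuspsOK (D : Dat) (Ex : List (List ℕ)) : Bool :=
  exOK D Ex && memL D.w0 D.W && nodupL D.W && listOK D Ex D.W

/-- the equations of `Helper10.Fam.BT.all`, made here once -/
theorem eqn_BT_all : True := by
  have h1 := @_root_.Pool.Agent.Helper10.Fam.BT.all.eq_1
  have h2 := @_root_.Pool.Agent.Helper10.Fam.BT.all.eq_2
  have h3 := @_root_.Pool.Agent.Helper10.Fam.BT.all.eq_def
  trivial

/-- the equations of `Helper10.Fam.beqL`, made here once -/
theorem eqn_beqL : True := by
  have h1 := @_root_.Pool.Agent.Helper10.Fam.beqL.eq_1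
  have h2 := @_root_.Pool.Agent.Helper10.Fam.beqL.eq_2
  have h3 := @_root_.Pool.Agent.Helper10.Fam.beqL.eq_3
  have h4 := @_root_.Pool.Agent.Helper10.Fam.beqL.eq_def
  trivial

/-- the equations of `Helper10.Fam.chkTr`, made here once -/
theorem eqn_chkTr : True := by
  have h1 := @_root_.Pool.Agent.Helper10.Fam.chkTr.eq_1
  have h2 := @_root_.Pool.Agent.Helper10.Fam.chkTr.eq_2
  have h3 := @_root_.Pool.Agent.Helper10.Fam.chkTr.eq_def
  trivial

/-- the equations of `Helper10.Fam.closedAt`, made here once -/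
theorem eqn_closedAt : True := by
  have h1 := @_root_.Pool.Agent.Helper10.Fam.closedAt.eq_1
  have h2 := @_root_.Pool.Agent.Helper10.Fam.closedAt.eq_2
  have h3 := @_root_.Pool.Agent.Helper10.Fam.closedAt.eq_3
  have h4 := @_root_.Pool.Agent.Helper10.Fam.closedAt.eq_def
  trivial

/-- the equations of `Helper10.Fam.getAt`, made here once -/
theorem eqn_getAt : True := by
  have h1 := @_root_.Pool.Agent.Helper10.Fam.getAt.eq_1
  have h2 := @_root_.Pool.Agent.Helper10.Fam.getAt.eq_2
  have h3 := @_root_.Pool.Agent.Helper10.Fam.getAt.eq_3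
  have h4 := @_root_.Pool.Agent.Helper10.Fam.getAt.eq_def
  trivial

/-- the equations of `Helper10.Fam.hasDesc`, made here once -/
theorem eqn_hasDesc : True := by
  have h1 := @_root_.Pool.Agent.Helper10.Fam.hasDesc.eq_1
  have h2 := @_root_.Pool.Agent.Helper10.Fam.hasDesc.eq_2
  have h3 := @_root_.Pool.Agent.Helper10.Fam.hasDesc.eq_def
  trivial

/-- the equations of `Helper10.Fam.listOK`, made here once -/
theorem eqn_listOK : True := by
  have h1 := @_root_.Pool.Agent.Helper10.Fam.listOK.eq_1
  have h2 := @_root_.Pool.Agent.Helper10.Fam.listOK.eq_2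
  have h3 := @_root_.Pool.Agent.Helper10.Fam.listOK.eq_def
  trivial

/-- the equations of `Helper10.Fam.refl`, made here once -/
theorem eqn_refl : True := by
  have h1 := @_root_.Pool.Agent.Helper10.Fam.refl.eq_1
  have h2 := @_root_.Pool.Agent.Helper10.Fam.refl.eq_2
  have h3 := @_root_.Pool.Agent.Helper10.Fam.refl.eq_3
  have h4 := @_root_.Pool.Agent.Helper10.Fam.refl.eq_def
  trivial

/-- the equations of `Helper10.Fam.setAt`, made here once -/
theorem eqn_setAt : True := by
  have h1 := @_root_.Pool.Agent.Helper10.Fam.setAt.eq_1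
  have h2 := @_root_.Pool.Agent.Helper10.Fam.setAt.eq_2
  have h3 := @_root_.Pool.Agent.Helper10.Fam.setAt.eq_3
  have h4 := @_root_.Pool.Agent.Helper10.Fam.setAt.eq_def
  trivial

end Pool.Agent.Helper10.Fam
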