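import Pool.Agent.Helper10.Fam.Chk

set_option autoImplicit false

/-!
# A faster check of the list of cusps
-/

namespace Pool.Agent.Helper10.Fam

/-- code of a list -/
def code : List ℕ → ℕ
  | [] => 0
  | a :: s => a + 64 * code s

/-- the codes are increasing -/
def incr : ℕ → List (List ℕ) → Bool
  | _, [] => true
  | k, w :: t => Nat.ble (k + 1) (code w) && incr (code w) t

/-- entry `k` of the table is `v` -/
def isAt (T : BT (List ℕ)) (k : ℕ) (v : List ℕ) : Bool :=
  match T.get k with
  | some u => beqL u v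
  | none => false

/-- the table contains the list at the places `k, k + 1, ...` -/
def tabOK (T : BT (List ℕ)) : ℕ → List (List ℕ) → Bool
  | _, [] => true
  | k, w :: t => isAt T k w && tabOK T (k + 1) t

def inT (T : BT (List ℕ)) (len k : ℕ) (v : List ℕ) : Bool :=
  Nat.ble 1 k && Nat.ble k len && isAt T k v

def atOK (T : BT (List ℕ)) (len : ℕ) (Ex : List (List ℕ)) (w : List ℕ) :
    List ℕ → List ℕ → List ℕ → ℕ → Bool
  | g :: gs, a :: as, k :: ks, i =>
    (Nat.ble g (2 * a) || inT T len k (refl g w i) || exLe (refl g w i) Ex) &&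
      atOK T len Ex w gs as ks (i + 1)
  | [], [], [], _ => true
  | _, _, _, _ => false

def descOK (T : BT (List ℕ)) (len : ℕ) (w : List ℕ) : List ℕ → List ℕ → List ℕ → ℕ → Bool
  | g :: gs, a :: as, k :: ks, i =>
    (Nat.ble (g + 1) (2 * a) && Nat.ble a g && inT T len k (refl g w i))
      || descOK T len w gs as ks (i + 1)
  | _, _, _, _ => false

def listF (D : Dat) (T : BT (List ℕ)) (len : ℕ) (Ex : List (List ℕ)) :
    List (List ℕ) → List (List ℕ) → Bool
  | [], [] => true
  | w :: t, ks :: kt =>
    Nat.beq w.length (D.n + 2) && (beqL w D.w0 || descOK T len w (mv D.G w) w ks 0) &&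
      atOK T len Ex w (mv D.G w) w ks 0 && listF D T len Ex t kt
  | _, _ => false

/-- fast version of `cuspsOK` -/
def fastCusps (D : Dat) (Ex : List (List ℕ)) (T : BT (List ℕ)) (len : ℕ)
    (K : List (List ℕ)) : Bool :=
  exOK D Ex && memL D.w0 D.W && incr 0 D.W && Nat.beq D.W.length len && tabOK T 1 D.W &&
    listF D T len Ex D.W K

end Pool.Agent.Helper10.Fam
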