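import Pool.Agent.Helper10.Fam.Fast
import Pool.Agent.Helper77.Fam.LSTB

set_option autoImplicit false

/-!
# Soundness of the faster check
-/

namespace Pool.Agent.Helper10.Fam

theorem incr_nodup : ∀ (W : List (List ℕ)) (k : ℕ), incr k W = true →
    (∀ w ∈ W, k < code w) ∧ W.Nodup
  | [], k, _ => ⟨by simp, List.nodup_nil⟩
  | w :: t, k, h => by
    simp only [incr, Bool.and_eq_true, Nat.ble_eq] at h
    obtain ⟨h1, h2⟩ := h
    obtain ⟨h3, h4⟩ := incr_nodup t (code w) h2
    refine ⟨?_, ?_⟩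
    · intro v hv
      rcases List.mem_cons.1 hv with h | h
      · rw [h]; omega
      · have := h3 v h
        omega
    · refine List.nodup_cons.2 ⟨fun hm => ?_, h4⟩
      have := h3 w hm
      omega

theorem isAt_iff {T : BT (List ℕ)} {k : ℕ} {v : List ℕ} (h : isAt T k v = true) :
    T.get k = some v := by
  unfold isAt at h
  cases h2 : T.get k with
  | none => rw [h2] at h; simp at h
  | some u =>
    rw [h2] at h
    simp only at h
    rw [(lstb_beqL u v).1 h]

theorem tab_mem {T : BT (List ℕ)} : ∀ (W : List (List ℕ)) (k : ℕ), tabOK T k W = true →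
    ∀ j, k ≤ j → j < k + W.length → ∃ w ∈ W, T.get j = some w
  | [], k, _, j, h1, h2 => by
    simp only [List.length_nil] at h2
    omega
  | w :: t, k, h, j, h1, h2 => by
    simp only [tabOK, Bool.and_eq_true] at h
    rcases Nat.eq_or_lt_of_le h1 with h3 | h3
    · exact ⟨w, List.mem_cons_self, by rw [← h3]; exact isAt_iff h.1⟩
    · obtain ⟨v, hv, hv2⟩ := tab_mem t (k + 1) h.2 j h3 (by
        simp only [List.length_cons] at h2; omega)
      exact ⟨v, List.mem_cons_of_mem _ hv, hv2⟩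

theorem inT_mem {W : List (List ℕ)} {T : BT (List ℕ)} (hT : tabOK T 1 W = true) {k : ℕ}
    {v : List ℕ} (h : inT T W.length k v = true) : memL v W = true := by
  simp only [inT, Bool.and_eq_true, Nat.ble_eq] at h
  obtain ⟨⟨h1, h2⟩, h3⟩ := h
  obtain ⟨w, hw, hw2⟩ := tab_mem W 1 hT k h1 (by omega)
  have h4 := isAt_iff h3
  rw [h4] at hw2
  have : v = w := by simpa using hw2
  rw [lstb_memL, this]
  exact hw

theorem atOK_closed {W : List (List ℕ)} {T : BT (List ℕ)} (hT : tabOK T 1 W = true)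
    {Ex : List (List ℕ)} {w : List ℕ} : ∀ (gs as ks : List ℕ) (i : ℕ),
    atOK T W.length Ex w gs as ks i = true → closedAt W Ex w gs as i = true
  | [], [], [], i, _ => rfl
  | [], [], _ :: _, i, h => by simp [atOK] at h
  | [], _ :: _, _, i, h => by simp [atOK] at h
  | _ :: _, [], _, i, h => by simp [atOK] at h
  | _ :: _, _ :: _, [], i, h => by simp [atOK] at h
  | g :: gs, a :: as, k :: ks, i, h => by
    simp only [atOK, Bool.and_eq_true, Bool.or_eq_true] at h
    simp only [closedAt, Bool.and_eq_true, Bool.or_eq_true]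
    refine ⟨?_, atOK_closed hT gs as ks (i + 1) h.2⟩
    rcases h.1 with (h1 | h1) | h1
    · exact Or.inl (Or.inl h1)
    · exact Or.inl (Or.inr (inT_mem hT h1))
    · exact Or.inr h1

theorem descOK_has {W : List (List ℕ)} {T : BT (List ℕ)} (hT : tabOK T 1 W = true)
    {w : List ℕ} : ∀ (gs as ks : List ℕ) (i : ℕ),
    descOK T W.length w gs as ks i = true → hasDesc W w gs as i = true
  | [], _, _, i, h => by simp [descOK] at h
  | _ :: _, [], _, i, h => by simp [descOK] at h
  | _ :: _, _ :: _, [], i, h => by simp [descOK] at h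
  | g :: gs, a :: as, k :: ks, i, h => by
    simp only [descOK, Bool.and_eq_true, Bool.or_eq_true] at h
    simp only [hasDesc, Bool.and_eq_true, Bool.or_eq_true]
    rcases h with h1 | h1
    · exact Or.inl ⟨h1.1, inT_mem hT h1.2⟩
    · exact Or.inr (descOK_has hT gs as ks (i + 1) h1)

theorem listF_ok {D : Dat} {T : BT (List ℕ)} (hT : tabOK T 1 D.W = true) {Ex : List (List ℕ)} :
    ∀ (W K : List (List ℕ)), listF D T D.W.length Ex W K = true → listOK D Ex W = true
  | [], [], _ => rfl
  | [], _ :: _, h => by simp [listF] at h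
  | _ :: _, [], h => by simp [listF] at h
  | w :: t, ks :: kt, h => by
    simp only [listF, Bool.and_eq_true, Bool.or_eq_true] at h
    simp only [listOK, Bool.and_eq_true, Bool.or_eq_true]
    obtain ⟨⟨⟨h1, h2⟩, h3⟩, h4⟩ := h
    refine ⟨⟨⟨h1, ?_⟩, atOK_closed hT _ _ _ _ h3⟩, listF_ok hT t kt h4⟩
    rcases h2 with h2 | h2
    · exact Or.inl h2
    · exact Or.inr (descOK_has hT _ _ _ _ h2)

theorem fast_ok {D : Dat} {Ex : List (List ℕ)} {T : BT (List ℕ)} {len : ℕ} {K : List (List ℕ)}
    (h : fastCusps D Ex T len K = true) : cuspsOK D Ex = true := by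
  simp only [fastCusps, Bool.and_eq_true, Nat.beq_eq] at h
  obtain ⟨⟨⟨⟨⟨h1, h2⟩, h3⟩, h4⟩, h5⟩, h6⟩ := h
  subst h4
  simp only [cuspsOK, Bool.and_eq_true]
  exact ⟨⟨⟨h1, h2⟩, (lstb_nodupL _).2 (incr_nodup _ _ h3).2⟩, listF_ok h5 _ _ h6⟩

end Pool.Agent.Helper10.Fam
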