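import Pool.Agent.Helper10.Fam.Chk

set_option autoImplicit false

/-!
# Splitting of large tree checks
-/

namespace Pool.Agent.Helper10.Fam

/-- top part of a tree whose leaves are numbers of subtrees -/
inductive TT where
  | ch : ℕ → TT
  | bis : ℕ → ℕ → ℕ → ℕ → ℕ → TT → TT → TT

/-- insert the subtrees -/
def TT.plug {α : Type} (S : ℕ → Tr α) : TT → Tr α
  | .ch k => S k
  | .bis i j al be k l r => .bis i j al be k (l.plug S) (r.plug S)

/-- equality of records -/
def eqV (x y : Vr) : Bool := beqL x.v y.v && Nat.beq x.nu y.nu && Nat.beq x.s y.s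

/-- equality of lists of records -/
def eqVL : List Vr → List Vr → Bool
  | [], [] => true
  | x :: s, y :: t => eqV x y && eqVL s t
  | _, _ => false

/-- check of the top part: the cone of the subtree `k < K` is `Cn k` -/
def chkTT (T : BT Vr) (K : ℕ) (Cn : ℕ → List Vr) : TT → List Vr → Bool
  | .ch k, L => Nat.ble (k + 1) K && eqVL (Cn k) L
  | .bis i j al be k l r, L =>
    match T.get k, getAt L i, getAt L j with
    | some P, some x, some y =>
      Nat.ble 1 al && Nat.ble 1 be && !(Nat.beq i j) && comb al be P.v x.v y.v &&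
        chkTT T K Cn l (setAt L i P) && chkTT T K Cn r (setAt L j P)
    | _, _, _ => false

theorem plug_beqL : ∀ {a b : List ℕ}, beqL a b = true → a = b
  | [], [], _ => rfl
  | [], _ :: _, h => by simp [beqL] at h
  | _ :: _, [], h => by simp [beqL] at h
  | a :: s, b :: t, h => by
    simp only [beqL, Bool.and_eq_true, Nat.beq_eq] at h
    rw [h.1, plug_beqL h.2]

theorem eqVL_eq : ∀ {L L' : List Vr}, eqVL L L' = true → L = L'
  | [], [], _ => rfl
  | [], _ :: _, h => by simp [eqVL] at h
  | _ :: _, [], h => by simp [eqVL] at h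
  | x :: s, y :: t, h => by
    simp only [eqVL, eqV, Bool.and_eq_true, Nat.beq_eq] at h
    obtain ⟨⟨⟨h1, h2⟩, h3⟩, h4⟩ := h
    have e1 := plug_beqL h1
    rw [eqVL_eq h4]
    cases x
    cases y
    simp only at e1 h2 h3
    rw [e1, h2, h3]

theorem plug_ok {α : Type} {T : BT Vr} {ok : α → List Vr → Bool} {S : ℕ → Tr α} {K : ℕ}
    {Cn : ℕ → List Vr} (hS : ∀ k, k < K → chkTr T ok (S k) (Cn k) = true) :
    ∀ (t : TT) (L : List Vr), chkTT T K Cn t L = true → chkTr T ok (t.plug S) L = true
  | .ch k, L, h => by
    simp only [chkTT, Bool.and_eq_true, Nat.ble_eq] at h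
    have := hS k h.1
    rw [eqVL_eq h.2] at this
    exact this
  | .bis i j al be k l r, L, h => by
    unfold chkTT at h
    unfold TT.plug chkTr
    cases h1 : T.get k with
    | none => rw [h1] at h; simp at h
    | some P =>
      cases h2 : getAt L i with
      | none => rw [h1, h2] at h; simp at h
      | some x =>
        cases h3 : getAt L j with
        | none => rw [h1, h2, h3] at h; simp at h
        | some y =>
          rw [h1, h2, h3] at h
          simp only [Bool.and_eq_true] at h ⊢
          obtain ⟨⟨h4, h5⟩, h6⟩ := h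
          exact ⟨⟨h4, plug_ok hS l _ h5⟩, plug_ok hS r _ h6⟩

theorem all_node {α : Type} {f : α → Bool} {a : α} {l r : BT α} (h1 : f a = true)
    (h2 : l.all f = true) (h3 : r.all f = true) : (BT.node a l r).all f = true := by
  unfold BT.all
  rw [h1, h2, h3]
  rfl

end Pool.Agent.Helper10.Fam
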