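import Pool.Agent.Helper10.Fam.Chk
import Pool.Agent.Helper10.Lor.Final

set_option autoImplicit false

/-!
# Statements of the modules of the family project (MP_8410ab_nt)
-/

namespace Pool.Agent.Helper10.Fam

open Pool.Agent.Helper10.Lor
open scoped BigOperators

/-! ## real vectors: functions `ℕ → ℝ` -/

/-- value of a list of natural numbers on a real vector -/
def dx : List ℕ → (ℕ → ℝ) → ℝ
  | [], _ => 0
  | a :: s, x => a * x 0 + dx s (fun i => x (i + 1))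

/-- bilinear form given by a list of rows -/
def bl : List (List ℕ) → (ℕ → ℝ) → (ℕ → ℝ) → ℝ
  | [], _, _ => 0
  | r :: R, x, y => x 0 * dx r y + bl R (fun i => x (i + 1)) y

/-- a list as a real vector -/
def fn (v : List ℕ) (i : ℕ) : ℝ := ((v.getD i 0 : ℕ) : ℝ)

/-- entry of a matrix -/
def ent (M : List (List ℕ)) (i j : ℕ) : ℕ := (M.getD i []).getD j 0

/-- coordinates (with respect to the simple roots) of a point of the chamber -/
structure IsPt (D : Dat) (x : ℕ → ℝ) : Prop where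
  nn : ∀ i, 0 ≤ x i
  zero : ∀ i, D.n + 2 ≤ i → x i = 0
  nrm : bl D.H x x = D.d
  rcs : ∀ y : ℕ → ℝ, D.d * bl D.H y y ≤ (bl D.H x y) ^ 2
  rcm : ∀ m : ℕ → ℝ, bl D.G m m - 2 * ∑ i ∈ Finset.range (D.n + 2), m i ^ 2
      ≤ (∑ i ∈ Finset.range (D.n + 2), m i * x i) ^ 2

/-- the weight `(c / 1000 - u)₊²` -/
noncomputable def pp (c : ℕ) (u : ℝ) : ℝ := (max 0 ((c : ℝ) / 1000 - u)) ^ 2

/-- elementary facts on the matrices -/
structure DOK (D : Dat) : Prop where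
  npos : 0 < D.n
  dpos : 0 < D.d
  lenG : D.G.length = D.n + 2
  lenG' : ∀ r ∈ D.G, r.length = D.n + 2
  lenH : D.H.length = D.n + 2
  lenH' : ∀ r ∈ D.H, r.length = D.n + 2
  lenw : D.w0.length = D.n + 2
  symG : ∀ i < D.n + 2, ∀ j < D.n + 2, ent D.G i j = ent D.G j i
  symH : ∀ i < D.n + 2, ∀ j < D.n + 2, ent D.H i j = ent D.H j i
  mat : ∀ i < D.n + 2, ∀ j < D.n + 2, ∑ k ∈ Finset.range (D.n + 2), ent D.H i k * ent D.G k j
    = 2 * ent D.H i j + if i = j then D.d else 0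
  posH : ∀ i < D.n + 2, ∀ j < D.n + 2, ¬(i = D.n + 1 ∧ j = D.n + 1) → 0 < ent D.H i j
  zeroH : ent D.H (D.n + 1) (D.n + 1) = 0
  diagG : ∀ i < D.n + 2, ent D.G i i = 0
  aff : ent D.G D.n (D.n + 1) = 1
  aff0 : ∀ i < D.n, ent D.G i (D.n + 1) = 0
  w0a : D.w0.getD (D.n + 1) 0 = 0
  w0b : D.w0.getD D.n 0 = 1
  w0pos : ∀ i < D.n + 1, 0 < D.w0.getD i 0
  null : ∀ i < D.n + 1, ∑ k ∈ Finset.range (D.n + 2), ent D.G i k * D.w0.getD k 0
    = 2 * D.w0.getD i 0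

/-- `β` is a system of simple roots with the given diagram -/
def IsBase (D : Dat) (β : Fin D.n → E D.n) : Prop :=
  ∀ i j : Fin D.n, inner ℝ (β i) (β j) = if i = j then (2 : ℝ) else -(ent D.G i j : ℝ)

/-- the simple roots of `U ⊕ L`: `(0,0,β_i)`, the affine root `(0,-1,-θ)`, and `(-1,1,0)` -/
noncomputable def alp (D : Dat) (β : Fin D.n → E D.n) (i : ℕ) : LV D.n :=
  if h : i < D.n then (0, 0, β ⟨i, h⟩)
  else if i = D.n then (0, -1, -∑ j : Fin D.n, (D.w0.getD j 0 : ℝ) • β j)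
  else (-1, 1, 0)

/-- coordinates of a point -/
noncomputable def xc (D : Dat) (β : Fin D.n → E D.n) (p : Pt D.n) (i : ℕ) : ℝ :=
  if i < D.n + 2 then form (vec p) (alp D β i) else 0

/-- the Lorentz vector with real coordinates `-m` -/
noncomputable def rv (D : Dat) (β : Fin D.n → E D.n) (m : ℕ → ℝ) : LV D.n :=
  -∑ i ∈ Finset.range (D.n + 2), m i • alp D β i

/-- the Lorentz vector with coordinates `-m` -/
noncomputable def wv (D : Dat) (β : Fin D.n → E D.n) (m : List ℕ) : LV D.n := rv D β (fn m)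

/-- the lattice spanned by the simple roots -/
def latOf {n : ℕ} (β : Fin n → E n) : AddSubgroup (E n) := AddSubgroup.closure (Set.range β)

/-- the weight as a function of the height -/
noncomputable def psF (c : ℕ) (r : ℝ) : ℝ := if r ≤ 0 then 0 else pp c (1 / r)

/-- the reflection in the simple root `i` -/
noncomputable def rf (D : Dat) (β : Fin D.n → E D.n) (i : ℕ) (v : LV D.n) : LV D.n :=
  v - form v (alp D β i) • alp D β i

/-! ## Statements of the modules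

Every module may use the statements of other modules as hypotheses. -/

/-- LSTA: elementary properties of the list functions -/
structure ST_LSTA : Prop where
  dn_eq : ∀ a b : List ℕ, ((dn a b : ℕ) : ℝ) = dx a (fn b)
  dn_comm : ∀ a b : List ℕ, dn a b = dn b a
  dx_add : ∀ (a : List ℕ) (x y : ℕ → ℝ), dx a (fun i => x i + y i) = dx a x + dx a y
  dx_smul : ∀ (a : List ℕ) (k : ℝ) (x : ℕ → ℝ), dx a (fun i => k * x i) = k * dx a x
  dx_nonneg : ∀ (a : List ℕ) (x : ℕ → ℝ), (∀ i, 0 ≤ x i) → 0 ≤ dx a x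
  dx_ax : ∀ (k : ℕ) (a b : List ℕ) (x : ℕ → ℝ), a.length = b.length →
    dx (ax k a b) x = k * dx a x + dx b x
  len_ax : ∀ (k : ℕ) (a b : List ℕ), a.length = b.length → (ax k a b).length = b.length
  dx_range : ∀ (a : List ℕ) (N : ℕ) (x : ℕ → ℝ), a.length = N →
    dx a x = ∑ i ∈ Finset.range N, fn a i * x i

/-- LSTB: the boolean tests -/
structure ST_LSTB : Prop where
  beqL : ∀ a b : List ℕ, beqL a b = true ↔ a = b
  memL : ∀ (w : List ℕ) (W : List (List ℕ)), memL w W = true ↔ w ∈ W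
  nodupL : ∀ W : List (List ℕ), nodupL W = true ↔ W.Nodup
  comb : ∀ (al be : ℕ) (v a b : List ℕ), comb al be v a b = true →
    v.length = a.length ∧ v.length = b.length ∧ ∀ i, fn v i = al * fn a i + be * fn b i
  smulEq : ∀ (k : ℕ) (v a : List ℕ), smulEq k v a = true → ∀ x, dx v x = k * dx a x
  leK : ∀ (k : ℕ) (a b : List ℕ), leK k a b = true →
    ∀ x : ℕ → ℝ, (∀ i, 0 ≤ x i) → dx a x ≤ k * dx b x
  isUnit : ∀ (N k : ℕ) (v : List ℕ), k < N → isUnit N k v = true →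
    v.length = N ∧ 0 < fn v k ∧ ∀ i, i ≠ k → fn v i = 0

/-- LSTC: matrices -/
structure ST_LSTC : Prop where
  mv_len : ∀ (R : List (List ℕ)) (v : List ℕ), (mv R v).length = R.length
  mv_fn : ∀ (R : List (List ℕ)) (v : List ℕ) (x : ℕ → ℝ), dx (mv R v) x = bl R x (fn v)
  mv_getD : ∀ (R : List (List ℕ)) (v : List ℕ) (i : ℕ), (mv R v).getD i 0 = dn (R.getD i []) v
  bl_add_left : ∀ (R : List (List ℕ)) (x x' y : ℕ → ℝ),
    bl R (fun i => x i + x' i) y = bl R x y + bl R x' y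
  bl_add_right : ∀ (R : List (List ℕ)) (x y y' : ℕ → ℝ),
    bl R x (fun i => y i + y' i) = bl R x y + bl R x y'
  bl_smul_left : ∀ (R : List (List ℕ)) (k : ℝ) (x y : ℕ → ℝ),
    bl R (fun i => k * x i) y = k * bl R x y
  bl_smul_right : ∀ (R : List (List ℕ)) (k : ℝ) (x y : ℕ → ℝ),
    bl R x (fun i => k * y i) = k * bl R x y
  bl_nonneg : ∀ (R : List (List ℕ)) (x y : ℕ → ℝ), (∀ i, 0 ≤ x i) → (∀ i, 0 ≤ y i) →
    0 ≤ bl R x y
  bl_range : ∀ (R : List (List ℕ)) (N : ℕ) (x y : ℕ → ℝ), R.length = N →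
    (∀ r ∈ R, r.length = N) →
    bl R x y = ∑ i ∈ Finset.range N, ∑ j ∈ Finset.range N, (ent R i j : ℝ) * x i * y j

/-- `x` is a nonnegative combination of the vertices in the list -/
inductive InCone : List Vr → (ℕ → ℝ) → Prop
  | nil (x : ℕ → ℝ) (h : ∀ i, x i = 0) : InCone [] x
  | cons (v : Vr) (L : List Vr) (t : ℝ) (x y : ℕ → ℝ) (ht : 0 ≤ t) (hy : InCone L y)
      (h : ∀ i, x i = t * fn v.v i + y i) : InCone (v :: L) x

/-- EXCH: bisection of a cone -/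
def ST_EXCH : Prop :=
  ∀ (L : List Vr) (i j al be : ℕ) (a b P : Vr) (x : ℕ → ℝ), InCone L x → i ≠ j →
    getAt L i = some a → getAt L j = some b → 1 ≤ al → 1 ≤ be →
    (∀ k, fn P.v k = al * fn a.v k + be * fn b.v k) →
    InCone (setAt L i P) x ∨ InCone (setAt L j P) x

/-- TREE: a property `Q` which holds for all points of the cones of the leaves accepted by `ok`
holds for all points of the initial cone; all cones consist of vertices with the property `P` -/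
def ST_TREE : Prop :=
  ∀ (α : Type) (P : Vr → Prop) (T : BT Vr) (ok : α → List Vr → Bool) (tr : Tr α) (L : List Vr)
    (Q : (ℕ → ℝ) → Prop),
    (∀ k v, T.get k = some v → P v) → (∀ v ∈ L, P v) →
    (∀ (k : α) (L' : List Vr), (∀ v ∈ L', P v) → ok k L' = true → ∀ x, InCone L' x → Q x) →
    chkTr T ok tr L = true → ∀ x, InCone L x → Q x

/-- INIT: the initial cone is the whole positive orthant -/
def ST_INIT : Prop :=
  ∀ (N : ℕ) (L : List Vr), initOK N 0 L = true → ∀ x : ℕ → ℝ, (∀ i, 0 ≤ x i) →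
    (∀ i, N ≤ i → x i = 0) → InCone L x

/-- GET: table lookup -/
def ST_GET : Prop :=
  ∀ (α : Type) (f : α → Bool) (T : BT α), T.all f = true → ∀ k a, T.get k = some a → f a = true

/-- CONE: linear functionals on a cone. `bl D.H x y / d` is the linear functional of `y` given by
the form with the point `x`; it is at least the norm of `y` -/
def ST_CONE : Prop :=
  ∀ (D : Dat) (x : ℕ → ℝ), 0 < D.d → IsPt D x → ∀ (L : List Vr) (y : ℕ → ℝ), InCone L y →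
    ∀ (a : List ℕ) (B : ℝ), 0 ≤ B →
    (∀ v ∈ L, dx a (fn v.v) ≤ B * Real.sqrt (bl D.H (fn v.v) (fn v.v) / D.d)) →
    dx a y ≤ B * (bl D.H x y / D.d)

/-- TANG: the tangent of `(c - u)₊² / u²` -/
def ST_TANG : Prop :=
  ∀ (c a : ℕ) (u : ℝ), 0 < u →
    (((tang c a).1 : ℕ) : ℝ) - (((tang c a).2 : ℕ) : ℝ) * u ≤ 1000000 * (pp c u / u ^ 2)

/-- TSUM: sum of the tangents -/
def ST_TSUM : Prop :=
  ∀ (c : ℕ) (X : List ℕ) (W : List (List ℕ)) (x : ℕ → ℝ), (∀ w ∈ W, w.length = X.length) →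
    (∀ w ∈ W, 0 < dx w x) → (tsum c X W).2.length = X.length ∧
    (((tsum c X W).1 : ℕ) : ℝ) - dx (tsum c X W).2 x
      ≤ 1000000 * (W.map fun w => pp c (dx w x) / (dx w x) ^ 2).sum

/-- LOW: soundness of the lower bound certificates -/
def ST_LOW : Prop :=
  ∀ (D : Dat) (C : LowCert), 0 < D.d → lowTab D C = true → lowBalls D C = true →
    lowTree D C = true → ∀ x : ℕ → ℝ, IsPt D x → (∀ w ∈ D.W, 0 < dx w x) →
    (C.m0 : ℝ) / 1000000 ≤ (D.W.map fun w => pp D.c (dx w x) / (dx w x) ^ 2).sum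

/-- UPC: convexity in a cone -/
def ST_UPC : Prop :=
  ∀ (D : Dat) (x : ℕ → ℝ), 0 < D.d → IsPt D x → ∀ (W : List (List ℕ)) (X : List ℕ)
    (M C ka : ℝ), 0 ≤ M → 0 ≤ ka → ∀ (L : List Vr) (y : ℕ → ℝ), InCone L y →
    (∀ v ∈ L, (W.map fun w => (max 0 (C * v.s - dx w (fn v.v))) ^ 2).sum
      ≤ M * Real.sqrt (bl D.H (fn v.v) (fn v.v) / D.d) * v.s) →
    (∀ v ∈ L, bl D.H (fn v.v) (fn X) ≤ v.s * ka) →
    ∃ S : ℝ, 0 ≤ S ∧ (W.map fun w => (max 0 (C * S - dx w y)) ^ 2).sum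
      ≤ M * S * (bl D.H x y / D.d) ∧ bl D.H y (fn X) ≤ S * ka

/-- UPV: the vertex test -/
def ST_UPV : Prop :=
  ∀ (D : Dat) (Mn : ℕ) (v : Vr), 0 < D.d → vOK D v = true → upV D Mn v = true →
    (D.W.map fun w => (max 0 ((D.c : ℝ) / 1000 * v.s - dx w (fn v.v))) ^ 2).sum
      ≤ (Mn : ℝ) / 1000 * Real.sqrt (bl D.H (fn v.v) (fn v.v) / D.d) * v.s

/-- ISO: two cusps -/
def ST_ISO : Prop :=
  ∀ (D : Dat), DOK D → ∀ w ∈ D.W, w ≠ D.w0 → isoOK D w = true → ∀ x, IsPt D x →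
    0 < dx w x → 0 < dx D.w0 x → 1 ≤ 2 * (dx w x * dx D.w0 x)

/-- UP: soundness of the upper bound certificates -/
def ST_UP : Prop :=
  ∀ (D : Dat) (C : UpCert), DOK D → D.W.Nodup → upTab D C = true → upVerts D C = true →
    upTree D C = true → ∀ x : ℕ → ℝ, IsPt D x → (∀ w ∈ D.W, 0 < dx w x) → 0 < dx D.w0 x →
    (D.W.map fun w => pp D.c (dx w x)).sum ≤ (C.Mn : ℝ) / 1000

/-! ### geometry -/

/-- ALPH: the simple roots -/
structure ST_ALPH : Prop where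
  form_alp : ∀ (D : Dat) (β : Fin D.n → E D.n), DOK D → IsBase D β → ∀ i < D.n + 2,
    ∀ j < D.n + 2, form (alp D β i) (alp D β j) = (if i = j then (2 : ℝ) else 0) - ent D.G i j
  rv_form : ∀ (D : Dat) (β : Fin D.n → E D.n), DOK D → IsBase D β → ∀ (m : ℕ → ℝ),
    ∀ j < D.n + 2, form (rv D β m) (alp D β j)
      = -2 * m j + ∑ i ∈ Finset.range (D.n + 2), (ent D.G i j : ℝ) * m i
  /-- every vector is determined by its values on the simple roots -/
  rep : ∀ (D : Dat) (β : Fin D.n → E D.n), DOK D → IsBase D β → ∀ v : LV D.n,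
    v = rv D β (fun i => ∑ k ∈ Finset.range (D.n + 2),
      (ent D.H i k : ℝ) * form v (alp D β k) / D.d)
  inj : ∀ (D : Dat) (β : Fin D.n → E D.n), DOK D → IsBase D β → ∀ m m' : ℕ → ℝ,
    rv D β m = rv D β m' → ∀ i < D.n + 2, m i = m' i
  wv_w0 : ∀ (D : Dat) (β : Fin D.n → E D.n), DOK D → wv D β D.w0 = w0

/-- LATT: the lattice -/
structure ST_LATT : Prop where
  even : ∀ (D : Dat) (β : Fin D.n → E D.n), DOK D → IsBase D β → EvenLat (latOf β) β
  /-- lattice vectors are the integral combinations of the simple roots -/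
  mem : ∀ (D : Dat) (β : Fin D.n → E D.n), DOK D → IsBase D β → ∀ v : LV D.n,
    v ∈ lat (latOf β) ↔ ∃ m : ℕ → ℤ, v = rv D β (fun i => (m i : ℝ))
  /-- the reflections are in the group -/
  rf_mem : ∀ (D : Dat) (β : Fin D.n → E D.n), DOK D → IsBase D β → ∀ i < D.n + 2,
    ∃ γ ∈ OL (latOf β), ∀ v, γ v = rf D β i v

/-- PT: coordinates of points -/
structure ST_PT : Prop where
  uval_rv : ∀ (D : Dat) (β : Fin D.n → E D.n) (m : ℕ → ℝ) (p : Pt D.n),
    uval (rv D β m) p = ∑ i ∈ Finset.range (D.n + 2), m i * xc D β p i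
  uval_wv : ∀ (D : Dat) (β : Fin D.n → E D.n) (m : List ℕ) (p : Pt D.n),
    m.length = D.n + 2 → uval (wv D β m) p = dx m (xc D β p)
  isPt : ∀ (D : Dat) (β : Fin D.n → E D.n), DOK D → IsBase D β → ∀ p ∈ UH D.n,
    (∀ i < D.n + 2, 0 ≤ xc D β p i) → IsPt D (xc D β p)

/-- RED: reduction to the chamber -/
def ST_RED : Prop :=
  ∀ (D : Dat) (β : Fin D.n → E D.n), DOK D → IsBase D β → ∀ p ∈ UH D.n,
    ∃ γ ∈ OL (latOf β), ∀ i < D.n + 2, 0 ≤ xc D β (act γ p) i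

/-- COV: Siegel set -/
def ST_COV : Prop :=
  ∀ (D : Dat) (β : Fin D.n → E D.n), DOK D → IsBase D β →
    ∃ C a : ℝ, 0 < a ∧ Covers (latOf β) C a

/-- ORB: orbit of the cusp -/
structure ST_ORB : Prop where
  /-- the orbit vectors have nonnegative integral coordinates -/
  coord : ∀ (D : Dat) (β : Fin D.n → E D.n), DOK D → IsBase D β → ∀ w ∈ Orb (latOf β),
    ∃ m : List ℕ, m.length = D.n + 2 ∧ w = wv D β m
  /-- a dominant orbit vector is `w0` -/
  dom : ∀ (D : Dat) (β : Fin D.n → E D.n), DOK D → IsBase D β → ∀ w ∈ Orb (latOf β),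
    (∀ i < D.n + 2, 0 ≤ form w (alp D β i)) → w = w0
  rf_orb : ∀ (D : Dat) (β : Fin D.n → E D.n), DOK D → IsBase D β → ∀ w ∈ Orb (latOf β),
    ∀ i < D.n + 2, rf D β i w ∈ Orb (latOf β)
  /-- reflections in coordinates -/
  rf_wv : ∀ (D : Dat) (β : Fin D.n → E D.n), DOK D → IsBase D β → ∀ (m : List ℕ),
    m.length = D.n + 2 → ∀ i < D.n + 2, m.getD i 0 ≤ (mv D.G m).getD i 0 →
    rf D β i (wv D β m) = wv D β (refl ((mv D.G m).getD i 0) m i)
  form_wv : ∀ (D : Dat) (β : Fin D.n → E D.n), DOK D → IsBase D β → ∀ (m : List ℕ),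
    m.length = D.n + 2 → ∀ i < D.n + 2,
    form (wv D β m) (alp D β i) = (((mv D.G m).getD i 0 : ℕ) : ℝ) - 2 * ((m.getD i 0 : ℕ) : ℝ)

/-- WORB: the vectors of the list are in the orbit -/
def ST_WORB : Prop :=
  ∀ (D : Dat) (β : Fin D.n → E D.n), DOK D → IsBase D β → ∀ Ex, cuspsOK D Ex = true →
    ∀ m ∈ D.W, m.length = D.n + 2 ∧ wv D β m ∈ Orb (latOf β)

/-- COMP: the list of cusps is complete -/
def ST_COMP : Prop :=
  ∀ (D : Dat) (β : Fin D.n → E D.n), DOK D → IsBase D β → ∀ Ex, cuspsOK D Ex = true →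
    ∀ p ∈ UH D.n, (∀ i < D.n + 2, 0 ≤ xc D β p i) → ∀ w ∈ Orb (latOf β),
    uval w p < (D.c : ℝ) / 1000 → ∃ m ∈ D.W, w = wv D β m

/-- all checks for one lattice -/
structure Good (D : Dat) (CL : LowCert) (CU : UpCert) (Ex : List (List ℕ)) : Prop where
  dok : DOK D
  cusps : cuspsOK D Ex = true
  low1 : lowTab D CL = true
  low2 : lowBalls D CL = true
  low3 : lowTree D CL = true
  up1 : upTab D CU = true
  up2 : upVerts D CU = true
  up3 : upTree D CU = true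
  mn : 0 < CU.Mn

/-- PSF: the weight function -/
def ST_PSF : Prop :=
  ∀ c : ℕ, Measurable (psF c) ∧ (∀ r, 0 ≤ psF c r) ∧ ∀ u : ℝ, 0 < u → psF c (1 / u) = pp c u

/-- WGT: the weights, `rho = κ δ` with `κ M ≤ 39.478 m₀` -/
def ST_WGT : Prop :=
  ∀ (D : Dat) (β : Fin D.n → E D.n) (CL : LowCert) (CU : UpCert) (Ex : List (List ℕ)),
    IsBase D β → Good D CL CU Ex → ∀ κ δ : ℝ, 0 < κ → 0 < δ →
    κ * ((CU.Mn : ℝ) / 1000) ≤ 39478 / 1000 * ((CL.m0 : ℝ) / 1000000) →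
    AWeights (latOf β) (psF D.c) (39478 / 1000 * δ) ((CU.Mn : ℝ) / 1000) (κ * δ)

/-- FIN: the main theorem for one lattice -/
def ST_FIN : Prop :=
  ∀ (D : Dat) (β : Fin D.n → E D.n) (CL : LowCert) (CU : UpCert) (Ex : List (List ℕ)),
    IsBase D β → Good D CL CU Ex → ∀ κ δ : ℝ, 0 < κ → 0 < δ →
    κ * ((CU.Mn : ℝ) / 1000) ≤ 39478 / 1000 * ((CL.m0 : ℝ) / 1000000) →
    ∀ (Δ : Subgroup (LV D.n ≃ₗ[ℝ] LV D.n)), Δ.relIndex (OL (latOf β)) ≠ 0 →
    ∀ f : Pt D.n → ℂ, ContDiffOn ℝ 2 f (UH D.n) →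
    (∀ γ ∈ Δ, ∀ p ∈ UH D.n, f (act γ p) = f p) →
    (∃ B : ℝ, ∀ p ∈ UH D.n, ‖f p‖ ≤ B) →
    ∀ lam : ℂ, (∀ p ∈ UH D.n, lap f p = -lam * f p) →
    (∀ γ ∈ OL (latOf β), ∃ b : Fin D.n → E D.n,
      (∀ i, b i ∈ latOf β ∧ γ * T (b i) * γ⁻¹ ∈ Δ) ∧
      (∀ ξ : E D.n, ξ ≠ 0 → (∀ i, ∃ k : ℤ, inner ℝ ξ (b i) = k) → δ ≤ ‖ξ‖ ^ 2) ∧
      ∀ r : ℝ, 0 < r →
        ∫ x in Set.Icc (0 : Fin D.n → ℝ) 1, f (act γ (∑ i, x i • b i, r)) = 0) →
    (∃ p ∈ UH D.n, f p ≠ 0) → ∃ l : ℝ, κ * δ ≤ l ∧ lam = l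

/-- the equations of `Helper10.Fam.dx`, made here once -/
theorem eqn_dx : True := by
  have h1 := @_root_.Pool.Agent.Helper10.Fam.dx.eq_1
  have h2 := @_root_.Pool.Agent.Helper10.Fam.dx.eq_2
  have h3 := @_root_.Pool.Agent.Helper10.Fam.dx.eq_def
  trivial

end Pool.Agent.Helper10.Fam
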