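import Pool.Agent.Helper10.Fam.Stmts

set_option autoImplicit false

/-!
# Statements of the modules of the family project, part 2 (transport to arbitrary bases of `E₈`)
-/

namespace Pool.Agent.Helper10.Fam

open Pool.Agent.Helper10.Lor
open scoped BigOperators

/-- the simple roots of `E₈` (Bourbaki) -/
noncomputable def b8 : Fin 8 → E 8 :=
  ![!₂[1/2, -1/2, -1/2, -1/2, -1/2, -1/2, -1/2, 1/2],
    !₂[1, 1, 0, 0, 0, 0, 0, 0],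
    !₂[-1, 1, 0, 0, 0, 0, 0, 0],
    !₂[0, -1, 1, 0, 0, 0, 0, 0],
    !₂[0, 0, -1, 1, 0, 0, 0, 0],
    !₂[0, 0, 0, -1, 1, 0, 0, 0],
    !₂[0, 0, 0, 0, -1, 1, 0, 0],
    !₂[0, 0, 0, 0, 0, -1, 1, 0]]

/-- B8: they have the Gram matrix of `E₈` and span `E₈` -/
def ST_B8 : Prop :=
  (∀ i j : Fin 8, inner ℝ (b8 i) (b8 j) = (CartanMatrix.E₈ i j : ℝ)) ∧ latOf b8 = E8

/-- ISO8: any system with this Gram matrix is isometric to it -/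
def ST_ISO8 : Prop :=
  (∀ i j : Fin 8, inner ℝ (b8 i) (b8 j) = (CartanMatrix.E₈ i j : ℝ)) →
  ∀ β : Fin 8 → E 8, (∀ i j : Fin 8, inner ℝ (β i) (β j) = (CartanMatrix.E₈ i j : ℝ)) →
    ∃ φ : E 8 ≃ₗᵢ[ℝ] E 8, ∀ i, φ (b8 i) = β i

/-- TRW: transport of the weights and of the Siegel set by an isometry -/
structure ST_TRW : Prop where
  wts : ∀ (n : ℕ) (L L' : AddSubgroup (E n)) (φ : E n ≃ₗᵢ[ℝ] E n), (∀ x, φ x ∈ L' ↔ x ∈ L) →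
    ∀ (ψ : ℝ → ℝ) (μ M rho : ℝ), AWeights L ψ μ M rho → AWeights L' ψ μ M rho
  cov : ∀ (n : ℕ) (L L' : AddSubgroup (E n)) (φ : E n ≃ₗᵢ[ℝ] E n), (∀ x, φ x ∈ L' ↔ x ∈ L) →
    ∀ C a : ℝ, Covers L C a → Covers L' C a

end Pool.Agent.Helper10.Fam
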